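import Pool.Agent.Lib.MP_d6150d_an.Fin3

namespace Pool.Agent.Results.MP_d6150d_an.Whole

open Pool.Agent.Lib.MP_d6150d_an

/-- Chicone's bound of two critical periods for Loud's centre, for all parameters; the period
function is constant at the four listed points. -/
theorem result :
  ∀ D F : ℝ, ∀ Per : ℝ → ℝ → Prop,
    (∀ u τ : ℝ, Per u τ ↔ (0 < τ ∧ ∃ γ : ℝ → ℝ × ℝ,
        (∀ t : ℝ, HasDerivAt γ (-(γ t).2 + (γ t).1 * (γ t).2,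
            (γ t).1 + D * (γ t).1 ^ 2 + F * (γ t).2 ^ 2) t) ∧
        γ 0 = (u, 0) ∧ γ τ = (u, 0) ∧ ∀ t ∈ Set.Ioo (0:ℝ) τ, γ t ≠ (u, 0))) →
    ∀ Ann : Set ℝ,
      (∀ s : ℝ, s ∈ Ann ↔ (0 < s ∧ ∀ u ∈ Set.Ioc (0:ℝ) s, ∃ τ : ℝ, Per u τ)) →
    ∀ T : ℝ → ℝ, (∀ s ∈ Ann, Per s (T s)) →
      (((D = 0 ∧ F = 1) ∨ (D = -1 / 2 ∧ F = 2) ∨ (D = 0 ∧ F = 1 / 4) ∨ (D = -1 / 2 ∧ F = 1 / 2)) ∧
        ∃ c : ℝ, ∀ s ∈ Ann, T s = c) ∨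
      ∀ S : Finset ℝ, (∀ s ∈ S, s ∈ Ann ∧ HasDerivAt T 0 s) → S.card ≤ 2 :=
  fun D F Per hPer Ann hAnn T hT ↦ (plane D F).elim
    (fun h ↦ Or.inr fun S hS ↦ h.card_le Per hPer Ann hAnn T hT S hS)
    (fun h ↦ Or.inl ⟨h, (isoC_of h).const Per hPer Ann hAnn T hT⟩)

end Pool.Agent.Results.MP_d6150d_an.Whole
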